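import Pool.Agent.Helper70.BI.HH.StHE
import Pool.Agent.Helper34.BI5.VK5
import Pool.Agent.Helper34.BI5.VK7
import Pool.Agent.Helper18.BI.M_X2

/-!
# Project BI, stage 7 (H), module PCN (the complement of the fixed cuff is path connected)
-/

set_option autoImplicit false

open scoped Topology unitInterval Manifold ContDiff
open Set Pool.Agent.Helper65.Barb Pool.Agent.Helper18.BI

namespace Pool.Agent.Helper70.HH

namespace PCN

theorem rank_R5 : 1 < Module.rank ℝ (EuclideanSpace ℝ (Fin 5)) := by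
  rw [← Module.finrank_eq_rank, finrank_euclideanSpace_fin]
  norm_num

instance : ConnectedSpace S4 :=
  isConnected_iff_connectedSpace.1 (isConnected_sphere rank_R5 0 zero_le_one)

theorem ne_neg {v : EuclideanSpace ℝ (Fin 5)} (h : ‖v‖ = 1) : v ≠ -v := by
  intro he
  have h3 : v + v = 0 := by
    have h4 : v + v = v + -v := congrArg (fun w => v + w) he
    rw [h4]
    exact add_neg_cancel v
  have h5 : (2 : ℝ) • v = 0 := by
    rw [two_smul]
    exact h3
  rcases smul_eq_zero.1 h5 with h6 | h6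
  · norm_num at h6
  · rw [h6, norm_zero] at h
    exact zero_ne_one h

instance : Nontrivial S4 := by
  have h : ‖EuclideanSpace.basisFun (Fin 5) ℝ 0‖ = 1 :=
    (EuclideanSpace.basisFun (Fin 5) ℝ).orthonormal.1 0
  have h1 : EuclideanSpace.basisFun (Fin 5) ℝ 0 ∈
      Metric.sphere (0 : EuclideanSpace ℝ (Fin 5)) 1 := by
    rw [mem_sphere_zero_iff_norm]
    exact h
  have h2 : -EuclideanSpace.basisFun (Fin 5) ℝ 0 ∈
      Metric.sphere (0 : EuclideanSpace ℝ (Fin 5)) 1 := by
    rw [mem_sphere_zero_iff_norm, norm_neg]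
    exact h
  exact ⟨⟨_, h1⟩, ⟨_, h2⟩, fun he => ne_neg h (congrArg Subtype.val he)⟩

theorem interior_pair (x y : S4) : interior ({x, y} : Set S4) = ∅ := by
  have h : ({x, y} : Set S4) = {x} ∪ {y} := rfl
  rw [h, interior_union_isClosed_of_interior_empty isClosed_singleton (interior_singleton y)]
  exact interior_singleton x

end PCN

open PCN Pool.Agent.Helper34.S5 in
theorem m_PCN (hX2c : Pool.Agent.Helper70.BI.StX2c) (hX3 : StX3) : StPCN := by
  rintro B hB A rfl x y
  have hcl := X2.closed_image B hB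
  have hfin : IsClosed ({x.1, y.1} : Set S4) := (Set.toFinite _).isClosed
  have hint : interior (B '' SP ∪ {x.1, y.1}) = ∅ := by
    rw [interior_union_isClosed_of_interior_empty hcl (interior_pair _ _)]
    exact X2.interior_image B hB
  obtain ⟨c, hc, hcr⟩ := hX2c (B '' SP ∪ {x.1, y.1}) (hcl.union hfin).isCompact hint
  have hBE : EmbOn (𝓡 4) B SP :=
    ⟨fun p hp => ⟨B, hB hp, fun q _ => rfl⟩, B.toPartialEquiv.injOn.mono hB⟩
  obtain ⟨h1, U, hU, hSU, h2⟩ := hX3 (EuclideanSpace ℝ (Fin 4)) (EuclideanSpace ℝ (Fin 4)) (𝓡 4) S4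
    c B SP hc hBE (subset_union_left.trans hcr)
  have hci : ∀ p q : R4, c p = c q → p = q := fun p q h => hc.2 (mem_univ p) (mem_univ q) h
  have hcc : Continuous c := continuous_iff_continuousAt.2 fun p =>
    (hc.1 p (mem_univ p)).contMDiffAt.continuousAt
  set G : R4 → R4 := fun p => Function.invFun c (B p) with hG
  have hK : IsClosed (G '' sph 1) := (isCompact_K h1).isClosed
  obtain ⟨η, -, T, -, -, -⟩ := exists_tub 𝓘(ℝ, R4) h1
  have hPC : ∀ (q : R4) (r : ℝ), 0 < r → IsPathConnected (Metric.ball q r \ G '' sph 1) :=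
    fun q r hr => ball_pc hK (fun p hp O hO => T.pc hp hO) q r hr
  have hmem : ∀ p : R4, p ∉ G '' sph 1 → c p ∉ B '' sph 1 := by
    rintro p hp ⟨q, hq, he⟩
    refine hp ⟨q, hq, ?_⟩
    exact hci _ _ ((h2 q (hSU (sph1_subset_SP hq))).trans he)
  obtain ⟨x', hx'⟩ := hcr (Or.inr (Or.inl rfl) : x.1 ∈ B '' SP ∪ {x.1, y.1})
  obtain ⟨y', hy'⟩ := hcr (Or.inr (Or.inr rfl) : y.1 ∈ B '' SP ∪ {x.1, y.1})
  have hoff : ∀ (p : R4) (z : {z : S4 // z ∉ B '' sph 1}), c p = z.1 → p ∉ G '' sph 1 := by
    rintro p z he ⟨q, hq, hqe⟩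
    refine z.2 ⟨q, hq, ?_⟩
    rw [← he, ← hqe]
    exact (h2 q (hSU (sph1_subset_SP hq))).symm
  obtain ⟨b, -⟩ := exists_path (K := G '' sph 1) hPC x' (r := dist y' x' + 1)
    (by positivity) ⟨x', hoff x' x hx'⟩ ⟨y', hoff y' y hy'⟩
    (Metric.mem_ball_self (by positivity)) (Metric.mem_ball.2 (lt_add_one _))
  exact ⟨{ toFun := fun t => ⟨c (b t).1, hmem _ (b t).2⟩
           continuous_toFun := (hcc.comp (continuous_subtype_val.comp b.continuous)).subtype_mk _
           source' := Subtype.ext (by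
             show c (b 0).1 = x.1
             rw [b.source]
             exact hx')
           target' := Subtype.ext (by
             show c (b 1).1 = y.1
             rw [b.target]
             exact hy') }⟩

end Pool.Agent.Helper70.HH
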