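import Pool.Agent.Helper70.BI.HH.StHA

/-!
# Project BI, stage 7, module PQ: families of spheres in polar coordinates
-/

set_option autoImplicit false

open scoped Topology unitInterval Manifold ContDiff ComplexConjugate
open Set Pool.Agent.Helper65.Barb Pool.Agent.Helper18.BI
open Pool.Agent.Helper18.BI.R (S2)
open Pool.Agent.Helper70.T

namespace Pool.Agent.Helper70.HH

private theorem nsq_PP (c s : ℝ) (ρ : ℝ) (h : c ^ 2 + s ^ 2 = 1) :
    nsq (c, (s : ℂ) * Complex.exp (ρ * Complex.I)) = 1 := by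
  have h1 : ((s : ℂ) * Complex.exp (ρ * Complex.I)).re = s * Real.cos ρ := by
    rw [Complex.re_ofReal_mul, Complex.exp_ofReal_mul_I_re]
  have h2 : ((s : ℂ) * Complex.exp (ρ * Complex.I)).im = s * Real.sin ρ := by
    rw [Complex.im_ofReal_mul, Complex.exp_ofReal_mul_I_im]
  rw [nsq]
  simp only
  rw [h1, h2]
  have h3 := Real.sin_sq_add_cos_sq ρ
  calc c ^ 2 + (s * Real.cos ρ) ^ 2 + (s * Real.sin ρ) ^ 2
      = c ^ 2 + s ^ 2 * (Real.sin ρ ^ 2 + Real.cos ρ ^ 2) := by ring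
    _ = 1 := by rw [h3, mul_one, h]

private theorem mem_PP (ρ v : ℝ) : PP ρ v ∈ S2 := by
  refine nsq_PP _ _ ρ ?_
  rw [add_comm]
  exact Real.sin_sq_add_cos_sq _

private theorem lat_PP {ρ v : ℝ} (hv : v ∈ Icc (0 : ℝ) 1) : lat (PP ρ v) = v := by
  have hpi := Real.pi_pos
  change Real.arccos (Real.cos (Real.pi * v)) / Real.pi = v
  rw [Real.arccos_cos (mul_nonneg hpi.le hv.1) (by nlinarith [hv.2])]
  field_simp

private theorem arg_PP {r θ : ℝ} (hr : 0 < r) (hθ : θ ∈ Ioc (-Real.pi) Real.pi) :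
    Complex.arg ((r : ℂ) * Complex.exp (θ * Complex.I)) = θ := by
  rw [Complex.exp_mul_I]
  exact Complex.arg_mul_cos_add_sin_mul_I hr hθ

private theorem lon_PP {ρ v : ℝ} (hρ : ρ ∈ Ico (0 : ℝ) (2 * Real.pi)) (hv : v ∈ Ioo (0 : ℝ) 1) :
    lon (PP ρ v) = ρ := by
  have hpi := Real.pi_pos
  have hs : 0 < Real.sin (Real.pi * v) :=
    Real.sin_pos_of_pos_of_lt_pi (mul_pos hpi hv.1) (by nlinarith [hv.2])
  change (if 0 ≤ Complex.arg ((Real.sin (Real.pi * v) : ℂ) * Complex.exp (ρ * Complex.I)) then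
    Complex.arg ((Real.sin (Real.pi * v) : ℂ) * Complex.exp (ρ * Complex.I)) else
    Complex.arg ((Real.sin (Real.pi * v) : ℂ) * Complex.exp (ρ * Complex.I)) + 2 * Real.pi) = ρ
  rcases le_or_gt ρ Real.pi with h | h
  · have h1 := arg_PP hs (θ := ρ) ⟨by linarith [hρ.1], h⟩
    rw [h1, if_pos hρ.1]
  · have h1 := arg_PP hs (θ := ρ - 2 * Real.pi) ⟨by linarith, by linarith [hρ.2]⟩
    have h2 : Complex.exp (((ρ - 2 * Real.pi : ℝ) : ℂ) * Complex.I) =
        Complex.exp (ρ * Complex.I) := by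
      push_cast
      rw [sub_mul, Complex.exp_sub, Complex.exp_two_pi_mul_I, div_one]
    rw [h2] at h1
    rw [h1, if_neg (by linarith [hρ.2])]
    ring

private theorem inv_PP {m : R3} (hm : m ∈ S2) : PP (lon m) (lat m) = m ∧
    lon m ∈ Icc (0 : ℝ) (2 * Real.pi) ∧ lat m ∈ Icc (0 : ℝ) 1 := by
  have hpi := Real.pi_pos
  have hm' : m.1 ^ 2 + m.2.re ^ 2 + m.2.im ^ 2 = 1 := hm
  have hlat : Real.pi * lat m = Real.arccos m.1 := by
    rw [lat]
    field_simp
  have hle : m.1 ^ 2 ≤ 1 := by nlinarith [sq_nonneg m.2.re, sq_nonneg m.2.im]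
  have hab := abs_le.1 (abs_le_one_iff_mul_self_le_one.2 (by nlinarith : m.1 * m.1 ≤ 1))
  have hnorm : Real.sqrt (1 - m.1 ^ 2) = ‖m.2‖ := by
    rw [Complex.norm_def, Complex.normSq_apply]
    congr 1
    nlinarith [hm']
  have hexp : (‖m.2‖ : ℂ) * Complex.exp (lon m * Complex.I) = m.2 := by
    have h1 : Complex.exp (lon m * Complex.I) = Complex.exp (m.2.arg * Complex.I) := by
      rw [lon]
      split_ifs
      · rfl
      · push_cast
        rw [add_mul, Complex.exp_add, Complex.exp_two_pi_mul_I, mul_one]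
    rw [h1]
    exact Complex.norm_mul_exp_arg_mul_I m.2
  refine ⟨?_, ?_, ?_⟩
  · rw [PP, hlat, Real.cos_arccos hab.1 hab.2, Real.sin_arccos, hnorm, hexp]
  · rw [lon]
    have h1 := Complex.neg_pi_lt_arg m.2
    have h2 := Complex.arg_le_pi m.2
    split_ifs with h
    · exact ⟨h, by linarith⟩
    · exact ⟨by linarith, by linarith⟩
  · constructor
    · exact div_nonneg (Real.arccos_nonneg _) hpi.le
    · rw [lat, div_le_one hpi]
      exact Real.arccos_le_pi _

private theorem cont_PP : Continuous fun z : ℝ × ℝ => PP z.1 z.2 := by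
  unfold PP
  refine Continuous.prodMk ?_ ?_
  · exact Real.continuous_cos.comp (continuous_const.mul continuous_snd)
  · refine Continuous.mul ?_ ?_
    · exact Complex.continuous_ofReal.comp
        (Real.continuous_sin.comp (continuous_const.mul continuous_snd))
    · exact Complex.continuous_exp.comp
        ((Complex.continuous_ofReal.comp continuous_fst).mul continuous_const)

private theorem sph2_PP {X : Type} (H : ℝ × ℝ → X)
    (h01 : ∀ v ∈ Icc (0 : ℝ) 1, H (0, v) = H (1, v))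
    (h0 : ∀ ρ ∈ Icc (0 : ℝ) 1, H (ρ, 0) = H (0, 0))
    (h1 : ∀ ρ ∈ Icc (0 : ℝ) 1, H (ρ, 1) = H (0, 1)) (ρ : ℝ) (hρ : ρ ∈ Icc (0 : ℝ) 1)
    (v : ℝ) (hv : v ∈ Icc (0 : ℝ) 1) : sph2 H (PP (2 * Real.pi * ρ) v) = H (ρ, v) := by
  have hpi := Real.pi_pos
  have hl : lon (PP (2 * Real.pi * ρ) v) / (2 * Real.pi) ∈ Icc (0 : ℝ) 1 := by
    have := (inv_PP (mem_PP (2 * Real.pi * ρ) v)).2.1
    exact ⟨div_nonneg this.1 (by positivity), (div_le_one (by positivity)).2 this.2⟩
  rw [sph2, lat_PP hv]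
  rcases eq_or_lt_of_le hv.1 with h | h
  · rw [← h] at hl ⊢
    rw [h0 _ hl, h0 _ hρ]
  rcases eq_or_lt_of_le hv.2 with h' | h'
  · rw [h'] at hl ⊢
    rw [h1 _ hl, h1 _ hρ]
  rcases eq_or_lt_of_le hρ.2 with h2 | h2
  · have h3 : Complex.exp (((2 * Real.pi * ρ : ℝ) : ℂ) * Complex.I) =
        Complex.exp (((0 : ℝ) : ℂ) * Complex.I) := by
      rw [h2]
      push_cast
      rw [mul_one, Complex.exp_two_pi_mul_I]
      simp
    have h4 : PP (2 * Real.pi * ρ) v = PP 0 v := by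
      rw [PP, PP, h3]
    rw [h4, lon_PP ⟨le_rfl, by positivity⟩ ⟨h, h'⟩, zero_div, h2, h01 v hv]
  · have h3 : 2 * Real.pi * ρ ∈ Ico (0 : ℝ) (2 * Real.pi) :=
      ⟨mul_nonneg (by positivity) hρ.1, by nlinarith⟩
    rw [lon_PP h3 ⟨h, h'⟩]
    congr 2
    field_simp

theorem m_PQ : StPQ := by
  intro X Z _ _ Γ hΓ h01 h0 h1
  have hpi := Real.pi_pos
  have key : ∀ z, ∀ ρ ∈ Icc (0 : ℝ) 1, ∀ v ∈ Icc (0 : ℝ) 1,
      sph2 (fun q => Γ (z, q)) (PP (2 * Real.pi * ρ) v) = Γ (z, ρ, v) := fun z ρ hρ v hv =>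
    sph2_PP (fun q => Γ (z, q)) (h01 z) (h0 z) (h1 z) ρ hρ v hv
  refine ⟨?_, key⟩
  -- the quotient map
  let K : Type := ↥(Icc (0 : ℝ) 1) × ↥(Icc (0 : ℝ) 1)
  let P : K → ↥S2 := fun k => ⟨PP (2 * Real.pi * k.1) k.2, mem_PP _ _⟩
  have hPc : Continuous P := by
    refine Continuous.subtype_mk ?_ _
    exact cont_PP.comp ((continuous_const.mul (continuous_subtype_val.comp continuous_fst)).prodMk
      (continuous_subtype_val.comp continuous_snd))
  have hPp : IsProperMap P := Continuous.isProperMap hPc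
  have hqp : IsProperMap (Prod.map (id : Z → Z) P) := isProperMap_id.prodMap hPp
  have hPs : Function.Surjective P := by
    rintro ⟨m, hm⟩
    obtain ⟨e, hl, hv⟩ := inv_PP hm
    have hl' : lon m / (2 * Real.pi) ∈ Icc (0 : ℝ) 1 :=
      ⟨div_nonneg hl.1 (by positivity), (div_le_one (by positivity)).2 hl.2⟩
    refine ⟨(⟨lon m / (2 * Real.pi), hl'⟩, ⟨lat m, hv⟩), Subtype.ext ?_⟩
    have e2 : 2 * Real.pi * (lon m / (2 * Real.pi)) = lon m := by field_simp
    change PP (2 * Real.pi * (lon m / (2 * Real.pi))) (lat m) = m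
    rw [e2, e]
  have hq : Topology.IsQuotientMap (Prod.map (id : Z → Z) P) :=
    hqp.isClosedMap.isQuotientMap hqp.continuous (Function.surjective_id.prodMap hPs)
  -- the map on `Z × S2`
  have hf : Continuous fun p : Z × ↥S2 => sph2 (fun q => Γ (p.1, q)) p.2 := by
    rw [hq.continuous_iff]
    have e : (fun p : Z × ↥S2 => sph2 (fun q => Γ (p.1, q)) p.2) ∘ (Prod.map (id : Z → Z) P) =
        fun p : Z × K => Γ (p.1, (p.2.1 : ℝ), (p.2.2 : ℝ)) := by
      funext p
      exact key p.1 p.2.1 p.2.1.2 p.2.2 p.2.2.2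
    rw [e]
    refine hΓ.comp_continuous ?_ ?_
    · exact continuous_fst.prodMk ((continuous_subtype_val.comp
        (continuous_fst.comp continuous_snd)).prodMk (continuous_subtype_val.comp
          (continuous_snd.comp continuous_snd)))
    · intro p
      exact ⟨mem_univ _, p.2.1.2, p.2.2.2⟩
  rw [continuousOn_iff_continuous_domRestrict]
  have hg : Continuous fun p : ↥((univ : Set Z) ×ˢ S2) => ((p.1.1, ⟨p.1.2, p.2.2⟩) : Z × ↥S2) := by
    refine Continuous.prodMk (continuous_fst.comp continuous_subtype_val) ?_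
    exact Continuous.subtype_mk (continuous_snd.comp continuous_subtype_val) _
  exact hf.comp hg

end Pool.Agent.Helper70.HH
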